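import Mathlib

set_option autoImplicit false

namespace Pool.Agent.Bres

open MvPowerSeries Finsupp

variable {k : Type*} [Field k] {e : ℕ} (a : Fin e → ℕ)

noncomputable def Zs (ha : ∀ i, a i ≠ 0) (n : ℕ) : Finset (Fin e →₀ ℕ) :=
  (Finsupp.finite_of_nat_weight_eq a ha n).toFinset

theorem mem_Zs (ha : ∀ i, a i ≠ 0) (n : ℕ) (u : Fin e →₀ ℕ) : u ∈ Zs a ha n ↔ weight a u = n := by
  simp [Zs]

def Kz (ha : ∀ i, a i ≠ 0) (f : MvPowerSeries (Fin e) k) : Prop :=
  ∀ n, ∑ u ∈ Zs a ha n, coeff u f = 0

def Sep (φ : (Fin e →₀ ℕ) → Prop) (z : ℕ) : Prop :=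
  ∀ u v, weight a u = z → weight a v = z → φ u → ¬ φ v → ∀ i, u i = 0 ∨ v i = 0

def Disc (z : ℕ) : Prop :=
  ∃ φ : (Fin e →₀ ℕ) → Prop, (∃ u, weight a u = z ∧ φ u) ∧ (∃ v, weight a v = z ∧ ¬ φ v) ∧
    Sep a φ z

open Classical in
theorem lam_mul (ha : ∀ i, a i ≠ 0) {φ : (Fin e →₀ ℕ) → Prop} {z : ℕ} (hφ : Sep a φ z)
    {f : MvPowerSeries (Fin e) k} (hf : Kz a ha f) (h : MvPowerSeries (Fin e) k) :
    ∑ u ∈ (Zs a ha z).filter φ, coeff u (h * f) =
      constantCoeff h * ∑ u ∈ (Zs a ha z).filter φ, coeff u f := by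
  set A := (Zs a ha z).filter φ with hA
  let P := (Finsupp.finite_of_nat_weight_le a ha z).toFinset
  have hP : ∀ u, u ∈ P ↔ weight a u ≤ z := fun u => by simp [P]
  have h1 : ∑ u ∈ A, coeff u (h * f) =
      ∑ x ∈ (P ×ˢ P).filter (fun x => x.1 + x.2 ∈ A), coeff x.1 h * coeff x.2 f := by
    rw [← Finset.sum_fiberwise_of_maps_to (t := A)
      (g := fun x : (Fin e →₀ ℕ) × (Fin e →₀ ℕ) => x.1 + x.2)
      (fun x hx => (Finset.mem_filter.1 hx).2)]
    refine Finset.sum_congr rfl fun u hu => ?_
    rw [coeff_mul]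
    refine Finset.sum_congr ?_ fun _ _ => rfl
    ext x
    simp only [Finset.HasAntidiagonal.mem_antidiagonal, Finset.mem_filter, Finset.mem_product, hP]
    constructor
    · intro hx
      have h2 : weight a x.1 + weight a x.2 = z := by
        rw [← map_add, hx]; exact (mem_Zs a ha z u).1 (Finset.mem_filter.1 hu).1
      exact ⟨⟨⟨by omega, by omega⟩, hx ▸ hu⟩, hx⟩
    · exact fun hx => hx.2
  rw [h1, Finset.sum_filter, Finset.sum_product, Finset.sum_eq_single 0]
  · simp only [zero_add, coeff_zero_eq_constantCoeff_apply]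
    rw [← Finset.sum_filter, Finset.mul_sum]
    refine Finset.sum_congr ?_ fun _ _ => rfl
    ext u
    simp only [Finset.mem_filter, hP, and_iff_right_iff_imp]
    intro hu
    exact ((mem_Zs a ha z u).1 (Finset.mem_filter.1 hu).1).le
  · intro p hp p0
    dsimp only
    rw [← Finset.sum_filter, ← Finset.mul_sum]
    by_cases hex : ∃ q, p + q ∈ A
    · obtain ⟨q0, hq0⟩ := hex
      have : P.filter (fun q => p + q ∈ A) = Zs a ha (z - weight a p) := by
        ext q
        rw [hP] at hp
        simp only [Finset.mem_filter, hP, mem_Zs, hA, map_add]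
        constructor
        · rintro ⟨-, h3, -⟩; omega
        · intro h3
          refine ⟨by omega, by omega, ?_⟩
          by_contra h4
          obtain ⟨i, hi⟩ : ∃ i, p i ≠ 0 := by
            by_contra h5
            push Not at h5
            exact p0 (Finsupp.ext h5)
          have h6 := Finset.mem_filter.1 hq0
          have := hφ (p + q0) (p + q) ((mem_Zs a ha z _).1 h6.1) (by rw [map_add]; omega) h6.2 h4 i
          simp only [Finsupp.add_apply] at this
          omega
      rw [this, hf, mul_zero]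
    · push Not at hex
      rw [Finset.filter_false_of_mem fun q _ => hex q]
      simp
  · intro h0
    exact absurd ((hP 0).2 (by simp)) h0

theorem card_le {R : Type*} [CommRing R] (ι : R →+* MvPowerSeries (Fin e) k) (ha : ∀ i, a i ≠ 0)
    (I : Ideal R) (hI : ∀ f ∈ I, Kz a ha (ι f))
    (hb : ∀ u v, weight a u = weight a v → ∃ f ∈ I, ι f = monomial u 1 - monomial v 1)
    (Z : Finset ℕ) (hZ : ∀ z ∈ Z, Disc a z) (G : Finset R) (hG : Ideal.span (G : Set R) = I) :
    Z.card ≤ G.card := by
  classical
  choose φ h1 h2 h3 using hZ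
  let Λ : R → (Z → k) := fun f z => ∑ u ∈ (Zs a ha z).filter (φ z.1 z.2), coeff u (ι f)
  have key : ∀ f ∈ Ideal.span (G : Set R), Λ f ∈ Submodule.span k (G.image Λ : Set (Z → k)) := by
    intro f hf
    induction hf using Submodule.span_induction with
    | mem x hx => exact Submodule.subset_span (by simpa using ⟨x, hx, rfl⟩)
    | zero =>
      have : Λ 0 = 0 := by ext z; simp [Λ]
      rw [this]; exact zero_mem _
    | add x y _ _ hx hy =>
      have : Λ (x + y) = Λ x + Λ y := by ext z; simp [Λ, Finset.sum_add_distrib]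
      rw [this]; exact add_mem hx hy
    | smul r x hx' hx =>
      have : Λ (r • x) = constantCoeff (ι r) • Λ x := by
        ext z
        simp only [Λ, smul_eq_mul, map_mul, Pi.smul_apply]
        convert lam_mul a ha (h3 z.1 z.2) (hI x (hG ▸ hx')) (ι r)
      rw [this]; exact Submodule.smul_mem _ _ hx
  have top : Submodule.span k (G.image Λ : Set (Z → k)) = ⊤ := by
    rw [eq_top_iff, ← (Pi.basisFun k Z).span_eq, Submodule.span_le]
    rintro _ ⟨z, rfl⟩
    obtain ⟨u, hu, hu'⟩ := h1 z.1 z.2
    obtain ⟨v, hv, hv'⟩ := h2 z.1 z.2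
    obtain ⟨f, hf, hf'⟩ := hb u v (hu.trans hv.symm)
    have : Λ f = Pi.basisFun k Z z := by
      ext y
      simp only [Λ, hf', map_sub, coeff_monomial, Finset.sum_sub_distrib, Finset.sum_ite_eq',
        Finset.mem_filter, mem_Zs, Pi.basisFun_apply, Pi.single_apply, hu, hv]
      by_cases hy : y = z
      · subst hy; simp [hu', hv']
      · have : ¬ z.1 = y.1 := fun h => hy (Subtype.ext h.symm)
        simp [hy, this]
    rw [← this]
    exact key f (hG ▸ hf)
  have := finrank_span_finset_le_card (R := k) (G.image Λ)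
  rw [Set.finrank, top, finrank_top, Module.finrank_fintype_fun_eq_card, Fintype.card_coe] at this
  exact this.trans Finset.card_image_le

theorem prod_pow {S : Type*} [CommMonoid S] (t : S) (u : Fin e →₀ ℕ) :
    (u.prod fun i n => (t ^ a i) ^ n) = t ^ weight a u := by
  rw [weight_apply, Finsupp.prod, Finsupp.sum, ← Finset.prod_pow_eq_pow_sum]
  refine Finset.prod_congr rfl fun i _ => ?_
  rw [← pow_mul, smul_eq_mul, mul_comm]

theorem card_le_poly (ha : ∀ i, a i ≠ 0) (Z : Finset ℕ) (hZ : ∀ z ∈ Z, Disc a z)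
    (G : Finset (MvPolynomial (Fin e) k))
    (hG : Ideal.span (G : Set (MvPolynomial (Fin e) k)) = RingHom.ker (MvPolynomial.aeval (R := k)
      (fun i : Fin e => (Polynomial.X : Polynomial k) ^ (a i)))) : Z.card ≤ G.card := by
  classical
  refine card_le a (MvPolynomial.coeToMvPowerSeries.ringHom) ha _ ?_ ?_ Z hZ G hG
  · intro f hf n
    rw [RingHom.mem_ker, MvPolynomial.aeval_def, MvPolynomial.eval₂_eq] at hf
    have h2 := congrArg (fun p => Polynomial.coeff p n) hf
    simp only [Polynomial.finsetSum_coeff, Polynomial.coeff_zero] at h2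
    have h3 : ∀ u : Fin e →₀ ℕ, (algebraMap k (Polynomial k) (MvPolynomial.coeff u f) *
        ∏ i ∈ u.support, ((Polynomial.X : Polynomial k) ^ a i) ^ u i).coeff n =
        if weight a u = n then MvPolynomial.coeff u f else 0 := by
      intro u
      have := prod_pow a (Polynomial.X : Polynomial k) u
      rw [Finsupp.prod] at this
      rw [this, Polynomial.algebraMap_apply, Polynomial.coeff_C_mul, Polynomial.coeff_X_pow]
      simp [eq_comm]
    simp only [h3] at h2
    rw [← Finset.sum_filter] at h2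
    simp only [MvPolynomial.coeToMvPowerSeries.ringHom_apply, MvPolynomial.coeff_coe]
    rw [← h2]
    symm
    refine Finset.sum_subset (fun u hu => (mem_Zs a ha n u).2 (Finset.mem_filter.1 hu).2) ?_
    intro u hu hu'
    by_contra h
    exact hu' (Finset.mem_filter.2 ⟨MvPolynomial.mem_support_iff.2 h, (mem_Zs a ha n u).1 hu⟩)
  · intro u v huv
    refine ⟨MvPolynomial.monomial u 1 - MvPolynomial.monomial v 1, ?_, by rw [map_sub]; simp⟩
    rw [RingHom.mem_ker, map_sub, MvPolynomial.aeval_monomial, MvPolynomial.aeval_monomial,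
      prod_pow, prod_pow, huv, sub_self]

theorem hasSubst (ha : ∀ i, a i ≠ 0) :
    HasSubst (fun i : Fin e => (PowerSeries.X : PowerSeries k) ^ (a i)) :=
  hasSubst_of_constantCoeff_zero fun i => by
    change PowerSeries.constantCoeff _ = 0
    simp [ha i]

theorem card_le_ps (ha : ∀ i, a i ≠ 0) (Z : Finset ℕ) (hZ : ∀ z ∈ Z, Disc a z)
    (I : Ideal (MvPowerSeries (Fin e) k))
    (hI : ∀ f, f ∈ I ↔ subst (fun i : Fin e => (PowerSeries.X : PowerSeries k) ^ (a i)) f = 0) :
    (Z.card : Cardinal) ≤ I.spanRank := by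
  classical
  obtain ⟨s, hs, hs'⟩ := I.exists_span_set_card_eq_spanRank
  rw [← hs]
  rcases s.finite_or_infinite with hf | hf
  · obtain ⟨G, rfl⟩ := hf.exists_finset_coe
    have : Z.card ≤ G.card := by
      refine card_le a (RingHom.id _) ha I ?_ ?_ Z hZ G hs'
      · intro f hf n
        have h2 := congrArg (coeff (Finsupp.single () n)) ((hI f).1 hf)
        rw [coeff_subst (hasSubst a ha)] at h2
        have h3 : ∀ u : Fin e →₀ ℕ, coeff u f • coeff (Finsupp.single () n)
            (u.prod fun i m => ((PowerSeries.X : PowerSeries k) ^ a i) ^ m) =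
            if weight a u = n then coeff u f else 0 := by
          intro u
          rw [prod_pow]
          change coeff u f • PowerSeries.coeff n _ = _
          rw [PowerSeries.coeff_X_pow]
          simp [eq_comm]
        simp only [h3] at h2
        rw [finsum_eq_sum_of_support_subset (s := Zs a ha n)] at h2
        · rw [map_zero] at h2
          rw [← h2]
          exact Finset.sum_congr rfl fun u hu => by rw [if_pos ((mem_Zs a ha n u).1 hu)]; rfl
        · intro u hu
          by_contra h
          exact hu (if_neg fun h' => h ((mem_Zs a ha n u).2 h'))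
      · intro u v huv
        refine ⟨monomial u 1 - monomial v 1, (hI _).2 ?_, rfl⟩
        rw [subst_sub (hasSubst a ha), subst_monomial (hasSubst a ha),
          subst_monomial (hasSubst a ha), prod_pow, prod_pow, huv, sub_self]
    simpa using this
  · exact (Cardinal.natCast_lt_aleph0).le.trans (Cardinal.infinite_iff.1 hf.to_subtype)

end Pool.Agent.Bres
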