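import Pool.Agent.H.MP_295d35_al.A
import Pool.Agent.H.MP_d25c28_al.B

set_option autoImplicit false

namespace Pool.Agent.Bres

open Pool.Agent.Cube

section S
variable (s : ℤ)

def gS : ℤ := 2 * s ^ 3 + 2 * s ^ 2 - s
def SS (z : ℤ) : Prop := InZ (gS s) (bA s) (cA s) z

variable {s}

theorem keyS (s n k1 k2 k3 : ℤ) (h1 : 0 ≤ k1) (h2 : k1 < 2 * s + 1) (h3 : 0 ≤ k2) (h4 : 0 ≤ k3)
    (b2 : k2 ≤ s) (b2' : k2 = s → k1 < s ∧ k3 < s - 1) (b3 : k3 ≤ s - 1) :
    (k1 ≤ n ∧ k2 ≤ n ∧ k3 ≤ n) ∨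
      (0 ≤ k1 - s ∧ k1 - s ≤ n - 1 ∧ k2 ≤ n - 1 ∧ k3 + s ≤ n - 1) ∨
      (0 ≤ k1 - s - 1 ∧ k1 - s - 1 ≤ n ∧ k2 + s + 1 ≤ n ∧ 0 ≤ k3 - 1 ∧ k3 - 1 ≤ n) ∨
      (2 * s - k1 ≤ 2 * s - 1 - n ∧ 0 ≤ s - 1 - k2 ∧ s - 1 - k2 ≤ 2 * s - 1 - n ∧
        s - 1 - k3 ≤ 2 * s - 1 - n) ∨
      (0 ≤ s - k1 ∧ s - k1 ≤ 2 * s - 2 - n ∧ 0 ≤ s - 1 - k2 ∧ s - 1 - k2 ≤ 2 * s - 2 - n ∧
        2 * s - 1 - k3 ≤ 2 * s - 2 - n) ∨
      (0 ≤ s - 1 - k1 ∧ s - 1 - k1 ≤ 2 * s - 1 - n ∧ 2 * s - k2 ≤ 2 * s - 1 - n ∧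
        0 ≤ s - 2 - k3 ∧ s - 2 - k3 ≤ 2 * s - 1 - n) := by
  by_cases c1 : k1 ≤ n ∧ k2 ≤ n ∧ k3 ≤ n
  · exact Or.inl c1
  refine Or.inr ?_
  have d1 : n < k1 ∨ n < k2 ∨ n < k3 := by omega
  clear c1
  by_cases f2 : k2 = s
  · have := b2' f2
    clear b2'
    refine Or.inr (Or.inr (Or.inr (Or.inr ?_)))
    omega
  clear b2'
  by_cases c4 : 2 * s - k1 ≤ 2 * s - 1 - n ∧ 0 ≤ s - 1 - k2 ∧ s - 1 - k2 ≤ 2 * s - 1 - n ∧
        s - 1 - k3 ≤ 2 * s - 1 - n
  · exact Or.inr (Or.inr (Or.inl c4))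
  have d4 : k1 ≤ n ∨ s + k2 < n ∨ s + k3 < n := by omega
  clear c4
  rcases lt_trichotomy k1 s with h | h | h
  · refine Or.inr (Or.inr (Or.inr ?_))
    by_cases c : n < k3
    · left; omega
    · right; omega
  · exfalso
    omega
  · by_cases c : s + k3 < n
    · left; omega
    · refine Or.inr (Or.inl ?_)
      omega

theorem gS_big (hs : 2 ≤ s) : 1 + bA s + cA s < gS s ∧ 0 < bA s ∧ 0 < cA s := by
  unfold gS bA cA
  have : 2 * s ^ 2 ≤ s ^ 3 := by nlinarith [sq_nonneg s]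
  refine ⟨by nlinarith, by omega, by positivity⟩

theorem coverS (hs : 2 ≤ s) (z : ℤ) : SS s z ∨ SS s (2 * s * gS s - 1 - z) := by
  obtain ⟨g1, hb, hc⟩ := gS_big hs
  have hg : 0 < gS s := by omega
  obtain ⟨n, k1, k2, k3, h1, h2, h3, h4, h5, h6, rfl⟩ := digits _ _ _ z hg hb hc
  have e1 : cA s = s * bA s + s := by unfold cA bA; ring
  have e2 : gS s = s * cA s - s := by unfold cA gS; ring
  have e3 : bA s = 2 * s + 1 := rfl
  have p2 : 0 ≤ k2 * bA s := by positivity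
  have b2 : k2 ≤ s := by
    by_contra h
    have : (s + 1) * bA s ≤ k2 * bA s := mul_le_mul_of_nonneg_right (by omega) hb.le
    nlinarith
  have b3 : k3 ≤ s - 1 := by
    by_contra h
    have : s * cA s ≤ k3 * cA s := mul_le_mul_of_nonneg_right (by omega) hc.le
    nlinarith
  have b2' : k2 = s → k1 < s ∧ k3 < s - 1 := by
    rintro rfl
    refine ⟨by linarith, ?_⟩
    by_contra h
    have : k3 = k2 - 1 := by omega
    subst this
    nlinarith
  rcases keyS s n k1 k2 k3 h1 h2 h3 h4 b2 b2' b3 with h | h | h | h | h | h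
  · exact Or.inl ⟨n, k1, k2, k3, by omega, by omega, by omega, by omega, by omega, by omega, rfl⟩
  · exact Or.inl ⟨n - 1, k1 - s, k2, k3 + s, by omega, by omega, by omega, by omega,
      by omega, by omega, by unfold gS bA cA; ring⟩
  · exact Or.inl ⟨n, k1 - s - 1, k2 + s + 1, k3 - 1, by omega, by omega, by omega, by omega,
      by omega, by omega, by unfold gS bA cA; ring⟩
  · exact Or.inr ⟨2 * s - 1 - n, 2 * s - k1, s - 1 - k2, s - 1 - k3, by omega, by omega,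
      by omega, by omega, by omega, by omega, by unfold gS bA cA; ring⟩
  · exact Or.inr ⟨2 * s - 2 - n, s - k1, s - 1 - k2, 2 * s - 1 - k3, by omega, by omega,
      by omega, by omega, by omega, by omega, by unfold gS bA cA; ring⟩
  · exact Or.inr ⟨2 * s - 1 - n, s - 1 - k1, 2 * s - k2, s - 2 - k3, by omega, by omega,
      by omega, by omega, by omega, by omega, by unfold gS bA cA; ring⟩

theorem notFS (hs : 2 ≤ s) : ¬ SS s (2 * s * gS s - 1) := by
  rintro ⟨n, k1, k2, k3, h1, h2, h3, h4, h5, h6, h⟩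
  obtain ⟨g1, hb, hc⟩ := gS_big hs
  have hg : 0 < gS s := by omega
  have p2 : 0 ≤ k2 * bA s := by positivity
  have p3 : 0 ≤ k3 * cA s := by positivity
  have q2 : k2 * bA s ≤ n * bA s := mul_le_mul_of_nonneg_right h4 hb.le
  have q3 : k3 * cA s ≤ n * cA s := mul_le_mul_of_nonneg_right h6 hc.le
  have n1 : n ≤ 2 * s - 1 := by
    by_contra h'
    have : (2 * s) * gS s ≤ n * gS s := mul_le_mul_of_nonneg_right (by omega) hg.le
    linarith
  have n2 : n = 2 * s - 1 := by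
    by_contra h'
    have r1 : n * gS s ≤ (2 * s - 2) * gS s := mul_le_mul_of_nonneg_right (by omega) hg.le
    have r2 : n * bA s ≤ (2 * s - 2) * bA s := mul_le_mul_of_nonneg_right (by omega) hb.le
    have r3 : n * cA s ≤ (2 * s - 2) * cA s := mul_le_mul_of_nonneg_right (by omega) hc.le
    have : n ≤ 2 * s - 2 := by omega
    unfold gS bA cA at *
    nlinarith
  subst n2
  have m1 : k3 ≤ s - 1 := by
    by_contra h'
    have : s * cA s ≤ k3 * cA s := mul_le_mul_of_nonneg_right (by omega) hc.le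
    unfold gS bA cA at *
    nlinarith
  have m2 : k3 = s - 1 := by
    by_contra h'
    have : k3 * cA s ≤ (s - 2) * cA s := mul_le_mul_of_nonneg_right (by omega) hc.le
    unfold gS bA cA at *
    nlinarith
  subst m2
  have m3 : k2 ≤ s - 1 := by
    by_contra h'
    have : s * bA s ≤ k2 * bA s := mul_le_mul_of_nonneg_right (by omega) hb.le
    unfold gS bA cA at *
    nlinarith
  have : k2 * bA s ≤ (s - 1) * bA s := mul_le_mul_of_nonneg_right m3 hb.le
  unfold gS bA cA at *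
  nlinarith

theorem symS (hs : 2 ≤ s) (z : ℤ) : SS s z ↔ ¬ SS s (2 * s * gS s - 1 - z) := by
  constructor
  · intro h h'
    have := InZ.add h h'
    rw [add_sub_cancel] at this
    exact notFS hs this
  · exact fun h => (coverS hs z).resolve_right h

theorem bettiS (hs : 2 ≤ s) {k n k1 k2 k3 : ℤ} (hk : 1 ≤ k) (hk' : k ≤ s - 1) (h1 : 0 ≤ k1)
    (h2 : k1 ≤ n) (h3 : 0 ≤ k2) (h4 : k2 ≤ n) (h5 : 0 ≤ k3) (h6 : k3 ≤ n)
    (h : n * gS s + k1 + k2 * bA s + k3 * cA s = s * gS s + k * cA s) :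
    (k1 = 0 ∧ k2 = 0) ∨ (k1 = n ∧ k2 = n) := by
  obtain ⟨g1, hb, hc⟩ := gS_big hs
  have hg : 0 < gS s := by omega
  have e1 : cA s = s * bA s + s := by unfold cA bA; ring
  have e2 : gS s = s * cA s - s := by unfold cA gS; ring
  have e3 : bA s = 2 * s + 1 := rfl
  have p2 : 0 ≤ k2 * bA s := by positivity
  have p3 : 0 ≤ k3 * cA s := by positivity
  have q2 : k2 * bA s ≤ n * bA s := mul_le_mul_of_nonneg_right h4 hb.le
  have q3 : k3 * cA s ≤ n * cA s := mul_le_mul_of_nonneg_right h6 hc.le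
  have q4 : k * cA s ≤ (s - 1) * cA s := mul_le_mul_of_nonneg_right hk' hc.le
  have q5 : 1 * cA s ≤ k * cA s := mul_le_mul_of_nonneg_right hk hc.le
  have n1 : n ≤ s := by
    by_contra h'
    have : (s + 1) * gS s ≤ n * gS s := mul_le_mul_of_nonneg_right (by omega) hg.le
    nlinarith
  have n2 : n = s := by
    by_contra h'
    have r1 : n * gS s ≤ (s - 1) * gS s := mul_le_mul_of_nonneg_right (by omega) hg.le
    have r2 : n * bA s ≤ (s - 1) * bA s := mul_le_mul_of_nonneg_right (by omega) hb.le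
    have r3 : n * cA s ≤ (s - 1) * cA s := mul_le_mul_of_nonneg_right (by omega) hc.le
    have : n ≤ s - 1 := by omega
    unfold gS bA cA at *
    nlinarith
  subst n2
  have m : k1 + k2 * bA n = (k - k3) * cA n := by linarith
  have m1 : 0 ≤ k - k3 := by
    by_contra h'
    have : (k - k3) * cA n ≤ (-1) * cA n := mul_le_mul_of_nonneg_right (by omega) hc.le
    linarith
  have m2 : k - k3 ≤ 1 := by
    by_contra h'
    have : 2 * cA n ≤ (k - k3) * cA n := mul_le_mul_of_nonneg_right (by omega) hc.le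
    linarith
  rcases (by omega : k - k3 = 0 ∨ k - k3 = 1) with h' | h'
  · rw [h', zero_mul] at m
    left
    refine ⟨by omega, ?_⟩
    by_contra h''
    have : 1 * bA n ≤ k2 * bA n := mul_le_mul_of_nonneg_right (by omega) hb.le
    omega
  · rw [h', one_mul] at m
    right
    refine ⟨by omega, ?_⟩
    by_contra h''
    have : k2 * bA n ≤ (n - 1) * bA n := mul_le_mul_of_nonneg_right (by omega) hb.le
    linarith

end S

def Mem {e : ℕ} (a : Fin e → ℕ) (z : ℤ) : Prop := ∃ c : Fin e → ℕ, ((∑ j, c j * a j : ℕ) : ℤ) = z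

theorem Mem.add {e : ℕ} {a : Fin e → ℕ} {x y : ℤ} (hx : Mem a x) (hy : Mem a y) :
    Mem a (x + y) := by
  obtain ⟨c, rfl⟩ := hx
  obtain ⟨d, rfl⟩ := hy
  exact ⟨c + d, by simp [add_mul, Finset.sum_add_distrib]⟩

theorem Mem.zero {e : ℕ} (a : Fin e → ℕ) : Mem a 0 := ⟨0, by simp⟩

theorem Mem.gen {e : ℕ} (a : Fin e → ℕ) (i : Fin e) : Mem a (a i) :=
  ⟨Pi.single i 1, by simp [Pi.single_apply]⟩

theorem Mem.nonneg {e : ℕ} {a : Fin e → ℕ} {x : ℤ} (hx : Mem a x) : 0 ≤ x := by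
  obtain ⟨c, rfl⟩ := hx; positivity

def Disc' {e : ℕ} (a : Fin e → ℕ) (z : ℕ) : Prop :=
  ∃ φ : (Fin e → ℕ) → Prop, (∃ u, ∑ j, u j * a j = z ∧ φ u) ∧ (∃ v, ∑ j, v j * a j = z ∧ ¬ φ v) ∧
    ∀ u v, ∑ j, u j * a j = z → ∑ j, v j * a j = z → φ u → ¬ φ v → ∀ i, u i = 0 ∨ v i = 0

theorem weight_eq {e : ℕ} (a : Fin e → ℕ) (u : Fin e →₀ ℕ) :
    Finsupp.weight a u = ∑ j, u j * a j := by
  rw [Finsupp.weight_apply, Finsupp.sum_fintype] <;> simp

theorem Disc'.disc {e : ℕ} {a : Fin e → ℕ} {z : ℕ} (h : Disc' a z) : Disc a z := by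
  obtain ⟨φ, ⟨u, hu, hu'⟩, ⟨v, hv, hv'⟩, h⟩ := h
  refine ⟨fun u => φ u, ⟨Finsupp.equivFunOnFinite.symm u, by rw [weight_eq]; exact hu, hu'⟩,
    ⟨Finsupp.equivFunOnFinite.symm v, by rw [weight_eq]; exact hv, hv'⟩, ?_⟩
  intro u v hu hv
  rw [weight_eq] at hu hv
  exact h u v hu hv

structure Good {e : ℕ} (a : Fin e → ℕ) (N : ℕ) : Prop where
  pos : ∀ i, a i ≠ 0
  min : ∀ i : Fin e, ∀ c : Fin e → ℕ, c i = 0 → ∑ j, c j * a j ≠ a i
  sym : ∃ F : ℤ, ∀ z : ℤ, Mem a z ↔ ¬ Mem a (F - z)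
  disc : ∃ Z : Finset ℕ, N < Z.card ∧ ∀ z ∈ Z, Disc' a z

def cube (g b c : ℕ) : Fin 8 → ℕ :=
  ![g, g + 1, g + b, g + b + 1, g + c, g + c + 1, g + c + b, g + c + b + 1]

theorem cube_sum (g b c : ℕ) (u : Fin 8 → ℕ) : ∑ j, u j * cube g b c j =
    (u 0 + u 1 + u 2 + u 3 + u 4 + u 5 + u 6 + u 7) * g + (u 1 + u 3 + u 5 + u 7) +
      (u 2 + u 3 + u 6 + u 7) * b + (u 4 + u 5 + u 6 + u 7) * c := by
  simp only [Fin.sum_univ_eight, cube]
  simp
  ring

theorem mem_cube (g b c : ℕ) (hg : 0 < g) (z : ℤ) : Mem (cube g b c) z ↔ InZ g b c z := by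
  constructor
  · rintro ⟨u, rfl⟩
    rw [cube_sum]
    exact ⟨(u 0 + u 1 + u 2 + u 3 + u 4 + u 5 + u 6 + u 7 : ℕ), (u 1 + u 3 + u 5 + u 7 : ℕ),
      (u 2 + u 3 + u 6 + u 7 : ℕ), (u 4 + u 5 + u 6 + u 7 : ℕ), by omega, by omega, by omega,
      by omega, by omega, by omega, by push_cast; ring⟩
  · intro h
    obtain ⟨m, rfl⟩ := Int.eq_ofNat_of_zero_le (h.nonneg (by omega) (by omega) (by omega))
    induction m using Nat.strong_induction_on with
    | _ m ih =>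
      by_cases h0 : (m : ℤ) = 0
      · rw [h0]; exact Mem.zero _
      obtain ⟨e1, e2, e3, y, a1, a2, a3, hy, h'⟩ := h.split h0
      obtain ⟨y, rfl⟩ := Int.eq_ofNat_of_zero_le (hy.nonneg (by omega) (by omega) (by omega))
      have : Mem (cube g b c) (g + e1 + e2 * b + e3 * c) ∧ 0 < g + e1 + e2 * b + e3 * c := by
        rcases a1 with rfl | rfl <;> rcases a2 with rfl | rfl <;> rcases a3 with rfl | rfl <;>
          refine ⟨?_, by positivity⟩
        · convert Mem.gen (cube g b c) 0 using 1; simp [cube]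
        · convert Mem.gen (cube g b c) 4 using 1; simp [cube]
        · convert Mem.gen (cube g b c) 2 using 1; simp [cube]
        · convert Mem.gen (cube g b c) 6 using 1; simp [cube]; ring
        · convert Mem.gen (cube g b c) 1 using 1; simp [cube]
        · convert Mem.gen (cube g b c) 5 using 1; simp [cube]; ring
        · convert Mem.gen (cube g b c) 3 using 1; simp [cube]; ring
        · convert Mem.gen (cube g b c) 7 using 1; simp [cube]; ring
      rw [h']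
      exact this.1.add (ih y (by omega) hy)

theorem cube_mono {g b c : ℕ} (hb : 1 < b) (hc : b + 1 < c) : StrictMono (cube g b c) := by
  rw [Fin.strictMono_iff_lt_succ]
  intro i
  fin_cases i <;> simp [cube] <;> omega

theorem cube_bd (g b c : ℕ) (i : Fin 8) : g ≤ cube g b c i ∧ cube g b c i ≤ g + c + b + 1 := by
  fin_cases i <;> simp [cube] <;> omega

theorem min_of_bd {e : ℕ} {a : Fin e → ℕ} {g : ℕ} (inj : Function.Injective a)
    (h : ∀ i, g ≤ a i ∧ a i < 2 * g) (i : Fin e) (c : Fin e → ℕ) (hc : c i = 0) :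
    ∑ j, c j * a j ≠ a i := by
  intro hs
  obtain ⟨j, hj⟩ : ∃ j, c j ≠ 0 := by
    by_contra h0
    push Not at h0
    have := h i
    simp [h0] at hs
    omega
  have ji : j ≠ i := fun h' => hj (h' ▸ hc)
  rw [← Finset.add_sum_erase _ _ (Finset.mem_univ j)] at hs
  have hi := h i
  have hj' := h j
  have cj : c j = 1 := by
    by_contra h'
    have : 2 * a j ≤ c j * a j := Nat.mul_le_mul_right _ (by omega)
    omega
  rw [cj, one_mul] at hs
  by_cases h0 : ∀ l ∈ Finset.univ.erase j, c l * a l = 0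
  · rw [Finset.sum_eq_zero h0] at hs
    exact ji (inj hs)
  · push Not at h0
    obtain ⟨l, hl, hl'⟩ := h0
    have := Finset.single_le_sum (f := fun l => c l * a l) (fun _ _ => Nat.zero_le _) hl
    have h2 : 1 * a l ≤ c l * a l :=
      Nat.mul_le_mul_right _ (Nat.pos_of_ne_zero fun h' => hl' (by simp [h']))
    have := h l
    omega

theorem good8 (N : ℕ) : ∃ a : Fin 8 → ℕ, StrictMono a ∧ Good a N := by
  obtain ⟨r, hr⟩ : ∃ r : ℕ, r = N + 2 := ⟨_, rfl⟩
  have hs : (2 : ℤ) ≤ r := by omega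
  obtain ⟨g1, g3, g4⟩ := gS_big hs
  obtain ⟨g, hg⟩ : ∃ g : ℕ, (g : ℤ) = gS r := ⟨(gS r).toNat, by omega⟩
  obtain ⟨b, hb⟩ : ∃ b : ℕ, (b : ℤ) = bA r := ⟨(bA r).toNat, by omega⟩
  obtain ⟨c, hc⟩ : ∃ c : ℕ, (c : ℤ) = cA r := ⟨(cA r).toNat, by omega⟩
  have hb1 : 1 < b := by unfold bA at hb; omega
  have hc1 : b + 1 < c := by
    unfold bA at hb; unfold cA at hc
    have : (b : ℤ) + 1 < c := by rw [hb, hc]; nlinarith
    omega
  have hcb : c = r * b + r := by
    have : (c : ℤ) = r * b + r := by rw [hb, hc]; unfold bA cA; ring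
    exact_mod_cast this
  refine ⟨cube g b c, cube_mono hb1 hc1, fun i => by have := cube_bd g b c i; omega,
    min_of_bd (g := g) (cube_mono hb1 hc1).injective fun i => by have := cube_bd g b c i; omega,
    ⟨2 * r * gS r - 1, fun z => ?_⟩, (Finset.Ico 1 r).image (fun k => r * g + k * c), ?_, ?_⟩
  · rw [mem_cube _ _ _ (by omega), mem_cube _ _ _ (by omega), hg, hb, hc]
    exact symS hs z
  · rw [Finset.card_image_of_injective]
    · simp; omega
    · intro x y h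
      exact Nat.eq_of_mul_eq_mul_right (by omega : 0 < c) (Nat.add_left_cancel h)
  · intro z hz
    obtain ⟨k, hk, rfl⟩ := Finset.mem_image.1 hz
    rw [Finset.mem_Ico] at hk
    have key : ∀ u : Fin 8 → ℕ, ∑ j, u j * cube g b c j = r * g + k * c →
        (u 1 + u 3 + u 5 + u 7 = 0 ∧ u 2 + u 3 + u 6 + u 7 = 0) ∨
        (u 0 + u 2 + u 4 + u 6 = 0 ∧ u 0 + u 1 + u 4 + u 5 = 0) := by
      intro u hu
      rw [cube_sum] at hu
      have := bettiS hs (k := k) (n := (u 0 + u 1 + u 2 + u 3 + u 4 + u 5 + u 6 + u 7 : ℕ))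
        (k1 := (u 1 + u 3 + u 5 + u 7 : ℕ)) (k2 := (u 2 + u 3 + u 6 + u 7 : ℕ))
        (k3 := (u 4 + u 5 + u 6 + u 7 : ℕ)) (by omega) (by omega) (by omega) (by omega) (by omega)
        (by omega) (by omega) (by omega) (by rw [← hg, ← hb, ← hc]; exact_mod_cast hu)
      omega
    obtain ⟨k, rfl⟩ : ∃ k', k = k' + 1 := ⟨k - 1, by omega⟩
    obtain ⟨m, hm⟩ : ∃ m, r = m + k + 1 := ⟨r - k - 1, by omega⟩
    refine ⟨fun u => u 1 + u 3 + u 5 + u 7 = 0 ∧ u 2 + u 3 + u 6 + u 7 = 0,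
      ⟨![m, 0, 0, 0, k + 1, 0, 0, 0], ?_, by simp⟩, ⟨![0, 0, 0, m + 1, 0, 0, 0, k], ?_, by simp⟩, ?_⟩
    · rw [cube_sum, hm]; simp; exact Or.inl (by omega)
    · rw [cube_sum]; simp
      rw [show m + 1 + k = r by omega, add_mul k 1 c, one_mul]
      omega
    · intro u v hu hv h1 h2 i
      have := (key v hv).resolve_left h2
      fin_cases i <;> simp <;> omega

theorem Good.big {e N : ℕ} {a : Fin e → ℕ} (h : Good a N) : ∃ F : ℤ,
    (∀ z : ℤ, Mem a z ↔ ¬ Mem a (F - z)) ∧ ¬ Mem a F ∧ ∀ z, F < z → Mem a z := by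
  obtain ⟨F, hF⟩ := h.sym
  exact ⟨F, hF, fun h' => (hF F).1 h' (by simpa using Mem.zero a),
    fun z hz => (hF z).2 fun h' => by have := h'.nonneg; omega⟩

theorem mem_cons {e : ℕ} {a : Fin e → ℕ} {A : ℕ} (hA : Mem a A) (z : ℤ) :
    Mem (Fin.cons A fun i => 2 * a i : Fin (e + 1) → ℕ) z ↔
      ∃ x, Mem a x ∧ (z = 2 * x ∨ z = 2 * x + A) := by
  have hs : ∀ u : Fin (e + 1) → ℕ,
      ∑ j, u j * (Fin.cons A fun i => 2 * a i : Fin (e + 1) → ℕ) j =
      u 0 * A + 2 * ∑ j : Fin e, u j.succ * a j := by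
    intro u
    rw [Fin.sum_univ_succ, Finset.mul_sum]
    simp [mul_left_comm]
  constructor
  · rintro ⟨u, rfl⟩
    rw [hs]
    have hm : ∀ n : ℕ, Mem a (n * A) := by
      intro n
      induction n with
      | zero => simpa using Mem.zero a
      | succ n ih => convert ih.add hA using 1; push_cast; ring
    refine ⟨_, (hm (u 0 / 2)).add ⟨fun j => u j.succ, rfl⟩, ?_⟩
    obtain ⟨q, h | h⟩ := Nat.even_or_odd' (u 0)
    · left; rw [h, show 2 * q / 2 = q by omega]; push_cast; ring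
    · right; rw [h, show (2 * q + 1) / 2 = q by omega]; push_cast; ring
  · rintro ⟨_, ⟨u, rfl⟩, rfl | rfl⟩
    · exact ⟨Fin.cons 0 u, by rw [hs]; simp⟩
    · exact ⟨Fin.cons 1 u, by rw [hs]; simp; ring⟩

theorem Good.glue {e N : ℕ} {a : Fin e → ℕ} (h : Good a N) :
    ∃ a' : Fin (e + 1) → ℕ, Good a' N := by
  obtain ⟨F, hF, -, hbig⟩ := h.big
  obtain ⟨Z, hZ, hZ'⟩ := h.disc
  obtain ⟨M, hM⟩ : ∃ M : ℕ, M = F.toNat + Z.sum id + ∑ i, a i := ⟨_, rfl⟩
  have hA : Mem a (2 * M + 1 : ℕ) := hbig _ (by omega)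
  have hs : ∀ u : Fin (e + 1) → ℕ,
      ∑ j, u j * (Fin.cons (2 * M + 1) fun i => 2 * a i : Fin (e + 1) → ℕ) j =
      u 0 * (2 * M + 1) + 2 * ∑ j : Fin e, u j.succ * a j := by
    intro u
    rw [Fin.sum_univ_succ, Finset.mul_sum]
    simp [mul_left_comm]
  have hz : ∀ (u : Fin (e + 1) → ℕ) (z : ℕ), z ≤ M →
      ∑ j, u j * (Fin.cons (2 * M + 1) fun i => 2 * a i : Fin (e + 1) → ℕ) j = 2 * z →
      u 0 = 0 ∧ ∑ j : Fin e, u j.succ * a j = z := by
    intro u z hz hu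
    rw [hs] at hu
    have : u 0 = 0 := by
      by_contra h0
      have : 1 * (2 * M + 1) ≤ u 0 * (2 * M + 1) := Nat.mul_le_mul_right _ (by omega)
      omega
    rw [this] at hu
    exact ⟨this, by omega⟩
  refine ⟨Fin.cons (2 * M + 1) fun i => 2 * a i, ?_, ?_, ⟨2 * F + (2 * M + 1 : ℕ), fun z => ?_⟩,
    Z.image (2 * ·), ?_, ?_⟩
  · intro i
    refine Fin.cases (by simp) (fun i => ?_) i
    simpa using h.pos i
  · intro i
    refine Fin.cases ?_ (fun i => ?_) i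
    · intro c hc h'
      rw [hs, hc] at h'
      simp only [Fin.cons_zero] at h'
      omega
    · intro c hc h'
      have : a i ≤ ∑ i, a i :=
        Finset.single_le_sum (f := a) (fun _ _ => Nat.zero_le _) (Finset.mem_univ i)
      exact h.min i (fun j => c j.succ) hc (hz c (a i) (by omega) h').2
  · rw [mem_cons hA, mem_cons hA]
    constructor
    · rintro ⟨x, hx, h1⟩ ⟨y, hy, h2⟩
      refine (hF x).1 hx ?_
      rwa [show F - x = y by omega]
    · intro h1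
      obtain ⟨q, hq | hq⟩ := Int.even_or_odd' z
      · refine ⟨q, (hF q).2 fun h2 => h1 ⟨F - q, h2, by omega⟩, Or.inl hq⟩
      · refine ⟨q - M, (hF _).2 fun h2 => h1 ⟨F - (q - M), h2, by omega⟩, Or.inr (by omega)⟩
  · rwa [Finset.card_image_of_injective _ fun x y (h : 2 * x = 2 * y) => by omega]
  · intro z hz0
    obtain ⟨z, hz1, rfl⟩ := Finset.mem_image.1 hz0
    have zM : z ≤ M := by
      have := Finset.single_le_sum (f := id) (fun _ _ => Nat.zero_le _) hz1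
      simp only [id] at this hM
      omega
    obtain ⟨φ, ⟨u, hu, hu'⟩, ⟨v, hv, hv'⟩, hφ⟩ := hZ' z hz1
    refine ⟨fun u => φ fun j => u j.succ, ⟨Fin.cons 0 u, by rw [hs]; simp [hu], by simpa using hu'⟩,
      ⟨Fin.cons 0 v, by rw [hs]; simp [hv], by simpa using hv'⟩, ?_⟩
    intro u v hu hv h1 h2 i
    refine Fin.cases (Or.inl (hz u z zM hu).1) (fun i => ?_) i
    exact hφ _ _ (hz u z zM hu).2 (hz v z zM hv).2 h1 h2 i

theorem good (e : ℕ) (he : 8 ≤ e) (N : ℕ) : ∃ a : Fin e → ℕ, Good a N := by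
  induction e, he using Nat.le_induction with
  | base => exact (good8 N).imp fun _ h => h.2
  | succ e _ ih => exact ih.elim fun _ h => h.glue

theorem Good.gcd {e N : ℕ} {a : Fin e → ℕ} (h : Good a N) : Finset.univ.gcd a = 1 := by
  obtain ⟨F, -, -, hbig⟩ := h.big
  have : ∀ z, Mem a z → ((Finset.univ.gcd a : ℕ) : ℤ) ∣ z := by
    rintro _ ⟨c, rfl⟩
    exact_mod_cast Finset.dvd_sum fun j _ =>
      Dvd.dvd.mul_left (Finset.gcd_dvd (Finset.mem_univ j)) _
  have h1 := dvd_sub (this _ (hbig (F + 2) (by omega))) (this _ (hbig (F + 1) (by omega)))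
  rw [show F + 2 - (F + 1) = ((1 : ℕ) : ℤ) by omega] at h1
  exact Nat.dvd_one.1 (by exact_mod_cast h1)

theorem mem_closure {e : ℕ} (a : Fin e → ℕ) (n : ℕ) :
    n ∈ AddSubmonoid.closure (Set.range a) ↔ Mem a n := by
  rw [AddSubmonoid.mem_closure_range_iff_of_fintype]
  simp only [Mem, smul_eq_mul, Nat.cast_inj, eq_comm]

theorem Good.notmem {e N : ℕ} {a : Fin e → ℕ} (h : Good a N) (j : Fin e) :
    a j ∉ AddSubmonoid.closure (a '' {l | l ≠ j}) := by
  have : ∀ x ∈ AddSubmonoid.closure (a '' {l | l ≠ j}),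
      ∃ c : Fin e → ℕ, c j = 0 ∧ ∑ l, c l * a l = x := by
    intro x hx
    induction hx using AddSubmonoid.closure_induction with
    | mem x hx =>
      obtain ⟨l, hl, rfl⟩ := hx
      exact ⟨Pi.single l 1, Pi.single_eq_of_ne' hl 1, by simp [Pi.single_apply]⟩
    | zero => exact ⟨0, rfl, by simp⟩
    | add x y _ _ hx hy =>
      obtain ⟨c, hc, rfl⟩ := hx
      obtain ⟨d, hd, rfl⟩ := hy
      exact ⟨c + d, by simp [hc, hd], by simp [add_mul, Finset.sum_add_distrib]⟩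
  intro h'
  obtain ⟨c, hc, hc'⟩ := this _ h'
  exact h.min j c hc hc'

theorem Good.cofin {e N : ℕ} {a : Fin e → ℕ} (h : Good a N) :
    ((AddSubmonoid.closure (Set.range a) : Set ℕ)ᶜ).Finite := by
  obtain ⟨F, -, -, hbig⟩ := h.big
  refine (Set.finite_le_nat F.toNat).subset fun n hn => ?_
  by_contra h'
  exact hn ((mem_closure a n).2 (hbig n (by simp at h'; omega)))

end Pool.Agent.Bres
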