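import Pool.Agent.H.MP_295d35_al.B

set_option autoImplicit false

namespace Pool.Agent.Bres

theorem sum_perm {e : ℕ} (a : Fin e → ℕ) (σ : Equiv.Perm (Fin e)) (c : Fin e → ℕ) :
    ∑ j, c j * (a ∘ σ) j = ∑ j, (c ∘ σ.symm) j * a j := by
  rw [← Equiv.sum_comp σ (fun j => (c ∘ σ.symm) j * a j)]
  simp

theorem sum_perm' {e : ℕ} (a : Fin e → ℕ) (σ : Equiv.Perm (Fin e)) (c : Fin e → ℕ) :
    ∑ j, (c ∘ σ) j * (a ∘ σ) j = ∑ j, c j * a j :=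
  Equiv.sum_comp σ (fun j => c j * a j)

theorem mem_perm {e : ℕ} (a : Fin e → ℕ) (σ : Equiv.Perm (Fin e)) (z : ℤ) :
    Mem (a ∘ σ) z ↔ Mem a z :=
  ⟨fun ⟨c, hc⟩ => ⟨c ∘ σ.symm, by rw [← sum_perm]; exact hc⟩,
    fun ⟨c, hc⟩ => ⟨c ∘ σ, by rw [sum_perm']; exact hc⟩⟩

theorem Good.perm {e N : ℕ} {a : Fin e → ℕ} (h : Good a N) (σ : Equiv.Perm (Fin e)) :
    Good (a ∘ σ) N := by
  refine ⟨fun i => h.pos _, fun i c hc h' => ?_, ?_, ?_⟩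
  · rw [sum_perm] at h'
    exact h.min (σ i) (c ∘ σ.symm) (by simpa using hc) h'
  · obtain ⟨F, hF⟩ := h.sym
    exact ⟨F, fun z => by rw [mem_perm, mem_perm]; exact hF z⟩
  · obtain ⟨Z, hZ, hZ'⟩ := h.disc
    refine ⟨Z, hZ, fun z hz => ?_⟩
    obtain ⟨φ, ⟨u, hu, hu'⟩, ⟨v, hv, hv'⟩, hφ⟩ := hZ' z hz
    refine ⟨fun u => φ (u ∘ σ.symm), ⟨u ∘ σ, by rw [sum_perm']; exact hu, ?_⟩,
      ⟨v ∘ σ, by rw [sum_perm']; exact hv, ?_⟩, ?_⟩
    · simpa [Function.comp_def] using hu'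
    · simpa [Function.comp_def] using hv'
    · intro u v hu hv h1 h2 i
      rw [sum_perm] at hu hv
      simpa using hφ _ _ hu hv h1 h2 (σ i)

theorem Good.inj {e N : ℕ} {a : Fin e → ℕ} (h : Good a N) : Function.Injective a := by
  intro i j hij
  by_contra hne
  exact h.min i (Pi.single j 1) (Pi.single_eq_of_ne hne 1) (by simp [Pi.single_apply, hij])

theorem goodM (e : ℕ) (he : 8 ≤ e) (N : ℕ) : ∃ a : Fin e → ℕ, StrictMono a ∧ Good a N := by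
  obtain ⟨a, ha⟩ := good e he N
  exact ⟨a ∘ Tuple.sort a, (Tuple.monotone_sort a).strictMono_of_injective
    (ha.perm _).inj, ha.perm _⟩

theorem mem_image {e : ℕ} (a : Fin e → ℕ) (z : ℤ) :
    z ∈ ((↑) '' (AddSubmonoid.closure (Set.range a) : Set ℕ) : Set ℤ) ↔ Mem a z := by
  constructor
  · rintro ⟨n, hn, rfl⟩
    exact (mem_closure a n).1 hn
  · intro h
    obtain ⟨n, rfl⟩ := Int.eq_ofNat_of_zero_le h.nonneg
    exact ⟨n, (mem_closure a n).2 h, rfl⟩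

end Pool.Agent.Bres
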